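import Pool.Agent.Helper549.Tri2.Main
import Pool.Agent.Helper549.Tri2.Cubic3

set_option autoImplicit false
noncomputable section
open scoped BigOperators

namespace Pool.Agent.Q141.Tile

open Pool.Agent.Helper549.Tri Pool.Agent.Helper549.Tri.Basic Pool.Agent.Helper549.Tri.Angles
open Pool.Agent.Helper549.Tri.Line Pool.Agent.Helper549.Tri.Char Pool.Agent.Helper549.Tri.Odd
open Pool.Agent.Helper549.Tri.RealChar Pool.Agent.Helper549.Tri2.Cubic

/-- complex numbers that become integers after multiplication by a power of `D` -/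
def den (D : ℤ) : Subring ℂ where
  carrier := {z | ∃ (n : ℕ) (k : ℤ), z * (D : ℂ) ^ n = k}
  zero_mem' := ⟨0, 0, by simp⟩
  one_mem' := ⟨0, 1, by simp⟩
  add_mem' := by
    rintro z w ⟨n, k, hk⟩ ⟨m, l, hl⟩
    refine ⟨n + m, k * D ^ m + l * D ^ n, ?_⟩
    push_cast
    rw [← hk, ← hl, pow_add]
    ring
  mul_mem' := by
    rintro z w ⟨n, k, hk⟩ ⟨m, l, hl⟩
    refine ⟨n + m, k * l, ?_⟩
    push_cast
    rw [← hk, ← hl, pow_add]
    ring
  neg_mem' := by
    rintro z ⟨n, k, hk⟩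
    exact ⟨n, -k, by rw [neg_mul, hk]; push_cast; ring⟩

theorem zpow_mem_den {D : ℤ} {x : ℂ} (h1 : x ∈ den D) (h2 : x⁻¹ ∈ den D) (n : ℤ) :
    x ^ n ∈ den D := by
  rcases n with n | n
  · rw [Int.ofNat_eq_natCast, zpow_natCast]
    exact pow_mem h1 n
  · rw [zpow_negSucc, ← inv_pow]
    exact pow_mem h2 _

/-- the identity given by the character -/
theorem core {N : ℕ} {T : Fin 3 → ℂ} {t : Fin N → Fin 3 → ℂ} (h : Dis N T t)
    (τ : Fin N → Equiv.Perm (Fin 3)) (ℓ θ : Fin 3 → ℝ) (hlen : ∀ i m, len (t i) m = ℓ (τ i m))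
    (hang : ∀ i m, ang (t i) m = θ (τ i m)) (hsum : θ 0 + θ 1 + θ 2 = Real.pi)
    (hirr : ¬ ∀ k, ∃ q : ℚ, θ k = q * Real.pi)
    (s : ℝ) (hTs : ∀ k, len T k = s) (hTa : ∀ k, ang T k = Real.pi / 3)
    (h01 : θ 0 + θ 1 = Real.pi / 3) (a b c : ℤ) (hc : c ≠ 0) (hab : b - a ≠ 0)
    (h0 : ℓ 0 = a) (h1 : ℓ 1 = b) (h2 : ℓ 2 = c) (heq : c ^ 2 = a ^ 2 + b ^ 2 + a * b) :
    ∃ (n : ℕ) (k : ℤ), (s : ℂ) * c * (c * (b - a)) ^ n = a * b * k := by
  classical
  have hcC : (c : ℂ) ≠ 0 := by exact_mod_cast hc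
  have habC : (b : ℂ) - a ≠ 0 := by exact_mod_cast hab
  obtain ⟨x, hx⟩ : ∃ x : ℂ, x = ((b : ℂ) - a) / c := ⟨_, rfl⟩
  have hx0 : x ≠ 0 := by rw [hx]; exact div_ne_zero habC hcC
  have hz0 : dir T 0 ≠ 0 := by
    intro h1
    have h2 := norm_dir T h.ccwT 0
    rw [h1] at h2
    simp at h2
  have hX : ∀ k, (![x, -x⁻¹, 1] : Fin 3 → ℂ) k ≠ 0 := by
    intro k
    fin_cases k
    · exact hx0
    · exact neg_ne_zero.mpr (inv_ne_zero hx0)
    · exact one_ne_zero
  have hxx : x * -x⁻¹ = -1 := by rw [mul_neg, mul_inv_cancel₀ hx0]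
  obtain ⟨φ, f1, f2, f3⟩ := char_exists θ hsum hirr ![2, 2, -1]
    (by
      rw [Fin.sum_univ_three]
      simp only [Matrix.cons_val_zero, Matrix.cons_val_one, Matrix.cons_val]
      push_cast
      linarith) ⟨2, rfl⟩
    ![x, -x⁻¹, 1] hX
    (by
      simp only [Matrix.cons_val_zero, Matrix.cons_val_one, Matrix.cons_val]
      rw [hxx]; norm_num)
    (by
      rw [Fin.prod_univ_three]
      simp only [Matrix.cons_val_zero, Matrix.cons_val_one, Matrix.cons_val]
      rw [← mul_zpow, hxx]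
      norm_num) (dir T 0) hz0
  have hT1 : ∀ k, φ (dir T k) = 1 := by
    obtain ⟨a1, a2⟩ := side_sum h.ccwT hTa φ f1 (-1) (corner_char θ φ _ hX f3 (-1) (by
      right
      refine ⟨h01, ?_⟩
      simp only [Matrix.cons_val_zero, Matrix.cons_val_one]
      rw [hxx]; norm_num))
    have b0 : φ (dir T 0) = 1 := by
      have h1 := f2 0 0
      simpa using h1
    have b2 : φ (dir T 2) = 1 := by rw [a2] at b0; linear_combination b0
    have b1 : φ (dir T 1) = 1 := by rw [a1] at b2; linear_combination b2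
    intro k
    fin_cases k
    · exact b0
    · exact b1
    · exact b2
  -- values of the character
  have hxm : x ∈ den (c * (b - a)) := by
    refine ⟨1, (b - a) ^ 2, ?_⟩
    rw [hx]; push_cast; field_simp
  have hxi : x⁻¹ ∈ den (c * (b - a)) := by
    refine ⟨1, c ^ 2, ?_⟩
    rw [hx]; push_cast; field_simp
  have hval : ∀ i l, φ (dir (t i) l) ∈ den (c * (b - a)) := by
    intro i l
    obtain ⟨m, y, hy⟩ := dir_coset h τ θ hang i l 0
    rw [hy, f2, Fin.prod_univ_three]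
    simp only [Matrix.cons_val_zero, Matrix.cons_val_one, Matrix.cons_val]
    have e1 : ((-1 : ℂ)) ^ m ∈ den (c * (b - a)) := by
      apply zpow_mem_den
      · exact neg_mem (one_mem _)
      · rw [inv_neg, inv_one]; exact neg_mem (one_mem _)
    refine mul_mem e1 (mul_mem (mul_mem (zpow_mem_den hxm hxi _) (zpow_mem_den ?_ ?_ _)) ?_)
    · exact neg_mem hxi
    · rw [inv_neg, inv_inv]; exact neg_mem hxm
    · rw [one_zpow]; exact one_mem _
  -- contribution of one tile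
  have htile : ∀ i, ∃ w ∈ den (c * (b - a)),
      (∑ k, (len (t i) k : ℂ) * φ (dir (t i) k)) * c = w * (3 * a * b) := by
    intro i
    have hid : ∀ r : ℝ, (AddMonoidHom.id ℝ) r = r := fun r => rfl
    rcases tile_f h.ccwt τ ℓ θ hlen hang (AddMonoidHom.id ℝ) φ _ hX f1 f3 i with ⟨-, h3⟩ | ⟨-, h3⟩
    · refine ⟨φ (dir (t i) ((τ i).symm 2)), hval i _, ?_⟩
      simp only [AddMonoidHom.id_apply] at h3
      rw [h3, h0, h1, h2]
      simp only [Matrix.cons_val_zero, Matrix.cons_val_one]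
      rw [inv_neg, inv_inv, hx]
      have heqC : (c : ℂ) ^ 2 = a ^ 2 + b ^ 2 + a * b := by exact_mod_cast heq
      push_cast
      field_simp
      linear_combination (φ (dir (t i) ((τ i).symm 2))) * heqC
    · refine ⟨0, zero_mem _, ?_⟩
      simp only [AddMonoidHom.id_apply] at h3
      rw [h3, h0, h1, h2]
      simp only [Matrix.cons_val_zero, Matrix.cons_val_one]
      have hxinv : x⁻¹ = c / ((b : ℂ) - a) := by rw [hx, inv_div]
      rw [hxinv]
      push_cast
      field_simp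
      ring
  choose w hw hwe using htile
  have hS := odd_sum_f h (AddMonoidHom.id ℝ) φ f1
  simp only [AddMonoidHom.id_apply] at hS
  rw [Fin.sum_univ_three (fun k => (len T k : ℂ) * φ (dir T k)), hTs, hTs, hTs, hT1, hT1, hT1] at hS
  obtain ⟨n, k, hk⟩ : (∑ i, w i) ∈ den (c * (b - a)) := sum_mem fun i _ => hw i
  refine ⟨n, k, ?_⟩
  have h5 : (3 * (s : ℂ)) * c = (∑ i, w i) * (3 * a * b) := by
    rw [Finset.sum_mul, ← Finset.sum_congr rfl fun i _ => hwe i, ← Finset.sum_mul, hS]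
    ring
  have h6 : (s : ℂ) * c = (∑ i, w i) * (a * b) := by
    apply mul_left_cancel₀ (show (3 : ℂ) ≠ 0 by norm_num)
    linear_combination h5
  push_cast at hk
  rw [h6]
  linear_combination (a * b : ℂ) * hk

end Pool.Agent.Q141.Tile
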