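import Pool.Agent.Q141.Tile.Setup

set_option autoImplicit false
noncomputable section
open scoped BigOperators

namespace Pool.Agent.Q141.Tile

open Pool.Agent.Helper549.Tri

theorem arith_ineq {a b c : ℕ} (ha : 0 < a) (hb : 0 < b) (heq : c ^ 2 = a ^ 2 + b ^ 2 + a * b) :
    a < c ∧ b < c ∧ c < a + b := by
  refine ⟨?_, ?_, ?_⟩
  · by_contra h
    push Not at h
    have : c ^ 2 ≤ a ^ 2 := Nat.pow_le_pow_left h 2
    nlinarith [Nat.mul_pos ha hb, Nat.pow_pos (n := 2) hb]
  · by_contra h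
    push Not at h
    have : c ^ 2 ≤ b ^ 2 := Nat.pow_le_pow_left h 2
    nlinarith [Nat.mul_pos ha hb, Nat.pow_pos (n := 2) ha]
  · by_contra h
    push Not at h
    have : (a + b) ^ 2 ≤ c ^ 2 := Nat.pow_le_pow_left h 2
    nlinarith [Nat.mul_pos ha hb]

theorem ne_of_eq {a b c : ℕ} (ha : 0 < a) (hcop : Nat.Coprime a b)
    (heq : c ^ 2 = a ^ 2 + b ^ 2 + a * b) : a ≠ b := by
  rintro rfl
  rw [Nat.coprime_self] at hcop
  subst hcop
  have h1 : c < 2 := by
    by_contra h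
    push Not at h
    have : 2 ^ 2 ≤ c ^ 2 := Nat.pow_le_pow_left h 2
    omega
  interval_cases c <;> omega

theorem coprime_c {a b c : ℕ} (hcop : Nat.Coprime a b)
    (heq : c ^ 2 = a ^ 2 + b ^ 2 + a * b) : IsCoprime ((a : ℤ) * b) ((c : ℤ) * (b - a)) := by
  have h1 : IsCoprime (a : ℤ) b := Nat.isCoprime_iff_coprime.mpr hcop
  have ha2 : IsCoprime (a : ℤ) (b - a) := by
    have := h1.add_mul_left_right (-1)
    rwa [mul_neg_one, ← sub_eq_add_neg] at this
  have hb2 : IsCoprime (b : ℤ) (b - a) := by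
    have h2 : IsCoprime (b : ℤ) (-a + b * 1) := (h1.symm.neg_right).add_mul_left_right 1
    have e : (-(a : ℤ) + b * 1) = b - a := by ring
    rwa [e] at h2
  have heZ : (c : ℤ) ^ 2 = a ^ 2 + b ^ 2 + a * b := by exact_mod_cast heq
  have hac : IsCoprime (a : ℤ) c := by
    apply (IsCoprime.pow_right_iff (m := 2) (by norm_num)).mp
    rw [heZ]
    have h2 : IsCoprime (a : ℤ) (b ^ 2 + a * (a + b)) := (h1.pow_right).add_mul_left_right _
    have e : (b : ℤ) ^ 2 + a * (a + b) = a ^ 2 + b ^ 2 + a * b := by ring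
    rwa [e] at h2
  have hbc : IsCoprime (b : ℤ) c := by
    apply (IsCoprime.pow_right_iff (m := 2) (by norm_num)).mp
    rw [heZ]
    have h2 : IsCoprime (b : ℤ) (a ^ 2 + b * (a + b)) := (h1.symm.pow_right).add_mul_left_right _
    have e : (a : ℤ) ^ 2 + b * (a + b) = a ^ 2 + b ^ 2 + a * b := by ring
    rwa [e] at h2
  exact (hac.mul_right ha2).mul_left (hbc.mul_right hb2)

theorem main_div (a b c : ℕ) (ha : 0 < a) (hb : 0 < b) (hcop : Nat.Coprime a b)
    (heq : c ^ 2 = a ^ 2 + b ^ 2 + a * b) (X : ℝ) (hX : 0 < X) (N : ℕ)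
    (h : TilesInto a b c X N) : ∃ m : ℕ, 0 < m ∧ X = m * (a * b) ∧ N = m ^ 2 * (a * b) := by
  obtain ⟨T, P, ⟨ρT, t1, t2, t3⟩, hP, hU, hD⟩ := h
  obtain ⟨hac, hbc, hcab⟩ := arith_ineq ha hb heq
  have haR : (0 : ℝ) < a := by exact_mod_cast ha
  have hbR : (0 : ℝ) < b := by exact_mod_cast hb
  have hcR : (0 : ℝ) < c := by exact_mod_cast (by omega : 0 < c)
  have hacR : (a : ℝ) < c := by exact_mod_cast hac
  have hbcR : (b : ℝ) < c := by exact_mod_cast hbc
  have hcabR : (c : ℝ) < a + b := by exact_mod_cast hcab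
  have heqR : (c : ℝ) ^ 2 = a ^ 2 + b ^ 2 + a * b := by exact_mod_cast heq
  have hN0 : N ≠ 0 := by
    rintro rfl
    have h1 : T 0 ∈ Tri T := subset_convexHull ℝ _ ⟨0, rfl⟩
    rw [← hU] at h1
    simp at h1
  have : NeZero N := ⟨hN0⟩
  choose σ hσ1 hσ2 hσ3 using hP
  -- relabel the vertices
  obtain ⟨Q, hQ⟩ : ∃ Q : Fin N → Fin 3 → Plane, Q = fun i k => P i (σ i k) := ⟨_, rfl⟩
  have hQ12 : ∀ i, dist (Q i 1) (Q i 2) = a := by intro i; rw [hQ]; exact hσ1 i
  have hQ20 : ∀ i, dist (Q i 2) (Q i 0) = b := by intro i; rw [hQ]; exact hσ2 i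
  have hQ01 : ∀ i, dist (Q i 0) (Q i 1) = c := by intro i; rw [hQ]; exact hσ3 i
  have hran : ∀ i, Set.range (Q i) = Set.range (P i) := by
    intro i
    rw [hQ]
    exact (σ i).surjective.range_comp (P i)
  obtain ⟨A, hA⟩ : ∃ A : Fin 3 → Plane, A = fun k => T (ρT k) := ⟨_, rfl⟩
  have hA12 : dist (A 1) (A 2) = X := by rw [hA]; exact t1
  have hA20 : dist (A 2) (A 0) = X := by rw [hA]; exact t2
  have hA01 : dist (A 0) (A 1) = X := by rw [hA]; exact t3
  have hAr : Set.range A = Set.range T := by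
    rw [hA]
    exact ρT.surjective.range_comp T
  have hQind : ∀ i, AffineIndependent ℝ (Q i) := by
    intro i
    apply indep_of_sides
    · rw [hQ01, hQ12, hQ20]; linarith
    · rw [hQ01, hQ12, hQ20]; linarith
    · rw [hQ01, hQ12, hQ20]; linarith
  have hAind : AffineIndependent ℝ A := by
    apply indep_of_sides
    · rw [hA01, hA12, hA20]; linarith
    · rw [hA01, hA12, hA20]; linarith
    · rw [hA01, hA12, hA20]; linarith
  have hall : ∀ (i : Fin N) (k l : Fin 3), dist (Q i k) (Q i l) = dist (Q 0 k) (Q 0 l) := by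
    intro i k l
    fin_cases k <;> fin_cases l
    · simp
    · exact (hQ01 i).trans (hQ01 0).symm
    · show dist (Q i 0) (Q i 2) = dist (Q 0 0) (Q 0 2)
      rw [dist_comm, hQ20, dist_comm, hQ20]
    · show dist (Q i 1) (Q i 0) = dist (Q 0 1) (Q 0 0)
      rw [dist_comm, hQ01, dist_comm, hQ01]
    · simp
    · exact (hQ12 i).trans (hQ12 0).symm
    · exact (hQ20 i).trans (hQ20 0).symm
    · show dist (Q i 2) (Q i 1) = dist (Q 0 2) (Q 0 1)
      rw [dist_comm, hQ12, dist_comm, hQ12]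
    · simp
  obtain ⟨TC, t, τ, ρ, hdis, hlen, hang, hlT⟩ := setup3 A Q hAind hQind hall
    (by
      show (⋃ i, convexHull ℝ (Set.range (Q i))) = convexHull ℝ (Set.range A)
      simp only [hran, hAr]
      exact hU)
    (by
      intro i j hij
      rw [hran, hran]
      exact hD i j hij)
  have hallA : ∀ x y : Fin 3, x ≠ y → dist (A x) (A y) = X := by
    intro x y hxy
    fin_cases x <;> fin_cases y <;> first | exact absurd rfl hxy | skip
    · exact hA01
    · show dist (A 0) (A 2) = _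
      rw [dist_comm]; exact hA20
    · show dist (A 1) (A 0) = _
      rw [dist_comm]; exact hA01
    · exact hA12
    · exact hA20
    · show dist (A 2) (A 1) = _
      rw [dist_comm]; exact hA12
  have hlTX : ∀ k, len TC k = X := by
    intro k
    rw [hlT k]
    apply hallA
    intro he
    have := ρ.injective he
    revert this
    fin_cases k <;> decide
  have hTa := ang_equilateral TC hdis.ccwT (by rw [hlTX, hlTX]) (by rw [hlTX, hlTX])
  -- the angles of the tile
  obtain ⟨θ, hθ⟩ : ∃ θ : Fin 3 → ℝ, θ = fun k => angle (Q 0) k := ⟨_, rfl⟩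
  have hang' : ∀ i m, ang (t i) m = θ (τ i m) := by intro i m; rw [hang, hθ]
  obtain ⟨ℓ, hℓ⟩ : ∃ ℓ : Fin 3 → ℝ, ℓ = fun k => dist (Q 0 (k + 1)) (Q 0 (k + 2)) := ⟨_, rfl⟩
  have hlen' : ∀ i m, len (t i) m = ℓ (τ i m) := by intro i m; rw [hlen, hℓ]
  have hℓ0 : ℓ 0 = a := by rw [hℓ]; exact hQ12 0
  have hℓ1 : ℓ 1 = b := by rw [hℓ]; exact hQ20 0
  have hℓ2 : ℓ 2 = c := by rw [hℓ]; exact hQ01 0
  have hsum : θ 0 + θ 1 + θ 2 = Real.pi := by
    rw [Fin.sum_univ_three θ |>.symm]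
    have h1 := Angles.ang_sum (t 0) (hdis.ccwt 0)
    rw [hang', hang', hang'] at h1
    rw [← h1, ← Fin.sum_univ_three (fun m => θ (τ 0 m))]
    exact (Equiv.sum_comp (τ 0) θ).symm
  have hpos : ∀ k, 0 < θ k := by
    intro k
    obtain ⟨m, rfl⟩ := (τ 0).surjective k
    rw [← hang']
    exact Angles.ang_pos _ (hdis.ccwt 0) m
  have hcos2 : Real.cos (θ 2) = -1 / 2 := by
    rw [hθ]
    show Real.cos (EuclideanGeometry.angle (Q 0 0) (Q 0 2) (Q 0 1)) = _
    rw [cos_angle (Q 0 0) (Q 0 2) (Q 0 1) b a c hbR haR (by rw [dist_comm]; exact hQ20 0) (hQ12 0)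
      (hQ01 0), div_eq_div_iff (by positivity) (by norm_num)]
    rw [heqR]; ring
  have hcos0 : Real.cos (θ 0) = ((2 * b + a : ℝ)) / (2 * c) := by
    rw [hθ]
    show Real.cos (EuclideanGeometry.angle (Q 0 1) (Q 0 0) (Q 0 2)) = _
    rw [cos_angle (Q 0 1) (Q 0 0) (Q 0 2) c b a hcR hbR (by rw [dist_comm]; exact hQ01 0) (hQ20 0)
      (hQ12 0), div_eq_div_iff (by positivity) (by positivity)]
    rw [heqR]; ring
  have hθ2 : θ 2 = Real.pi - Real.pi / 3 := by
    have h1 : Real.cos (θ 2) = Real.cos (Real.pi - Real.pi / 3) := by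
      rw [hcos2, Real.cos_pi_sub, Real.cos_pi_div_three]; norm_num
    apply Real.injOn_cos _ _ h1
    · exact ⟨(hpos 2).le, by linarith [hpos 0, hpos 1]⟩
    · constructor <;> linarith [Real.pi_pos]
  have h01 : θ 0 + θ 1 = Real.pi / 3 := by linarith
  have hirr : ¬ ∀ k, ∃ q : ℚ, θ k = q * Real.pi := by
    intro hk
    have h1 := niven (hk 0) ⟨(2 * b + a) / (2 * c), by rw [hcos0]; push_cast; rfl⟩
    rw [hcos0] at h1
    have hp : (0 : ℝ) < (2 * b + a) / (2 * c) := by positivity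
    simp only [Set.mem_insert_iff, Set.mem_singleton_iff] at h1
    rcases h1 with h1 | h1 | h1 | h1 | h1
    · linarith
    · linarith
    · linarith
    · rw [div_eq_div_iff (by positivity) (by norm_num)] at h1
      nlinarith
    · rw [div_eq_iff (by positivity)] at h1
      nlinarith
  -- the character
  have hne := ne_of_eq ha hcop heq
  obtain ⟨n, k, hk⟩ := core hdis τ ℓ θ hlen' hang' hsum hirr X hlTX hTa h01 (a : ℤ) b c
    (by exact_mod_cast (by omega : c ≠ 0)) (by omega) (by rw [hℓ0]; simp) (by rw [hℓ1]; simp)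
    (by rw [hℓ2]; simp) (by exact_mod_cast heq)
  -- the side is an integer
  have hXint : ∃ S : ℕ, X = S := by
    have h1 := Odd.bd_len hdis 0
    rw [hlTX] at h1
    have h2 : ∀ r : ℝ, (∃ S : ℕ, r = S) ↔ r ∈ AddSubmonoid.closure ({1} : Set ℝ) := by
      intro r
      rw [AddSubmonoid.mem_closure_singleton]
      constructor
      · rintro ⟨S, rfl⟩; exact ⟨S, by simp⟩
      · rintro ⟨S, rfl⟩; exact ⟨S, by simp⟩
    rw [h2, ← h1]
    refine sum_mem fun i _ => sum_mem fun l _ => ?_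
    rw [← h2]
    have h3 : ∃ S : ℕ, len (t i) l = S := by
      rw [hlen']
      have : ∀ k : Fin 3, ∃ S : ℕ, ℓ k = S := by
        intro k
        fin_cases k
        · exact ⟨a, hℓ0⟩
        · exact ⟨b, hℓ1⟩
        · exact ⟨c, hℓ2⟩
      exact this _
    split_ifs
    · exact h3
    · exact ⟨0, by simp⟩
  obtain ⟨S, hS⟩ := hXint
  have hkZ : (S : ℤ) * c * (c * (b - a)) ^ n = a * b * k := by
    rw [hS] at hk
    push_cast at hk
    exact_mod_cast hk
  have hcopn := coprime_c hcop heq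
  have hdvd : ((a : ℤ) * b) ∣ S := by
    have h1 : ((a : ℤ) * b) ∣ S * (c * (c * (b - a)) ^ n) := ⟨k, by rw [← hkZ]; ring⟩
    apply IsCoprime.dvd_of_dvd_mul_right _ h1
    refine IsCoprime.mul_right ?_ (hcopn.pow_right)
    exact hcopn.of_mul_right_left
  obtain ⟨m, hm⟩ : (a * b) ∣ S := by exact_mod_cast hdvd
  have hm0 : 0 < m := by
    rcases Nat.eq_zero_or_pos m with h1 | h1
    · rw [hS, hm, h1] at hX
      simp at hX
    · exact h1
  refine ⟨m, hm0, ?_, ?_⟩
  · rw [hS, hm]; push_cast; ring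
  · have h1 := AngleSum.area_sum hdis
    rw [Finset.sum_congr rfl fun i _ => DataDis.area_tile7310 hdis.ccwt τ ℓ θ hlen' hang' i] at h1
    rw [Finset.sum_const, Finset.card_univ, Fintype.card_fin, nsmul_eq_mul,
      Angles.dd_eq TC hdis.ccwT 2, hlTX, hlTX, hTa, hθ2, Real.sin_pi_sub, hℓ0, hℓ1] at h1
    have hs : Real.sin (Real.pi / 3) ≠ 0 := by
      rw [Real.sin_pi_div_three]
      positivity
    have h2 : (N : ℝ) * (a * b) = X * X := by
      apply mul_right_cancel₀ hs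
      linarith
    rw [hS, hm] at h2
    have h3 : N * (a * b) = (a * b * m) * (a * b * m) := by exact_mod_cast h2
    have h4 : N * (a * b) = m ^ 2 * (a * b) * (a * b) := by rw [h3]; ring
    exact Nat.eq_of_mul_eq_mul_right (Nat.mul_pos ha hb) h4

end Pool.Agent.Q141.Tile
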