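import Pool.Agent.Q141.Tile.Core
import Pool.Agent.Helper549.Tri2.Main
import Mathlib.NumberTheory.Niven

set_option autoImplicit false
noncomputable section
open scoped BigOperators

namespace Pool.Agent.Q141.Tile

open Pool.Agent.Helper549.Tri

/-- The Euclidean plane. -/
abbrev Plane : Type := EuclideanSpace ℝ (Fin 2)

/-- The closed triangle with the vertices `v 0`, `v 1`, `v 2`. -/
def Tri (v : Fin 3 → Plane) : Set Plane := convexHull ℝ (Set.range v)

/-- `v` is the vertex triple of a triangle with side lengths `a`, `b`, `c`, in some order. -/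
def HasSides (v : Fin 3 → Plane) (a b c : ℝ) : Prop :=
  ∃ σ : Equiv.Perm (Fin 3), dist (v (σ 1)) (v (σ 2)) = a ∧ dist (v (σ 2)) (v (σ 0)) = b ∧
    dist (v (σ 0)) (v (σ 1)) = c

/-- The equilateral triangle of side `X` tiles into `N` triangles with side lengths
`a`, `b`, `c`. -/
def TilesInto (a b c : ℝ) (X : ℝ) (N : ℕ) : Prop :=
  ∃ (T : Fin 3 → Plane) (P : Fin N → Fin 3 → Plane), HasSides T X X X ∧
    (∀ i, HasSides (P i) a b c) ∧ (⋃ i, Tri (P i)) = Tri T ∧
    ∀ i j, i ≠ j → Disjoint (interior (Tri (P i))) (interior (Tri (P j)))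

theorem setup3 {N : ℕ} [NeZero N] (A : Fin 3 → EuclideanSpace ℝ (Fin 2))
    (P : Fin N → Fin 3 → EuclideanSpace ℝ (Fin 2)) (hA : AffineIndependent ℝ A)
    (hP : ∀ i, AffineIndependent ℝ (P i))
    (hdist : ∀ i, ∀ k l,
      dist (P i k) (P i l) = dist (P 0 k) (P 0 l))
    (hU : (⋃ i, convexHull ℝ (Set.range (P i))) = convexHull ℝ (Set.range A))
    (hD : ∀ i j, i ≠ j → Disjoint (interior (convexHull ℝ (Set.range (P i))))
          (interior (convexHull ℝ (Set.range (P j))))) :
    ∃ (T : Fin 3 → ℂ) (t : Fin N → Fin 3 → ℂ) (τ : Fin N → Equiv.Perm (Fin 3))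
      (ρ : Equiv.Perm (Fin 3)),
      Dis N T t ∧ (∀ i m, len (t i) m = dist (P 0 (τ i m + 1)) (P 0 (τ i m + 2))) ∧
      (∀ i m, ang (t i) m = angle (P 0) (τ i m)) ∧
      (∀ k, len T k = dist (A (ρ (k + 1))) (A (ρ (k + 2)))) := by
  obtain ⟨ρ, hρ⟩ := Setup.orient A hA
  choose r hr using fun i => Setup.orient (P i) (hP i)
  have hd : ∀ i a b, dist (Setup.eC (P i (r i a))) (Setup.eC (P i (r i b))) =
      dist (P 0 (r i a)) (P 0 (r i b)) := by
    intro i a b
    rw [Setup.eC.dist_map, hdist]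
  refine ⟨fun k => Setup.eC (A (ρ k)), fun i k => Setup.eC (P i (r i k)), r, ρ, ?_, ?_, ?_, ?_⟩
  · refine ⟨hρ, hr, ?_, ?_⟩
    · rw [Setup.hull_img A ρ, ← hU, Set.image_iUnion]
      refine Set.iUnion_congr fun i => ?_
      exact Setup.hull_img (P i) (r i)
    · intro i j hij
      rw [Setup.hull_img (P i) (r i), Setup.hull_img (P j) (r j)]
      have h1 : ∀ S : Set (EuclideanSpace ℝ (Fin 2)),
          interior (Setup.eC '' S) = Setup.eC '' interior S :=
        fun S => (Setup.eC.toHomeomorph.image_interior S).symm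
      rw [h1, h1]
      exact (Set.disjoint_image_iff Setup.eC.injective).2 (hD i j hij)
  · intro i m
    show ‖Setup.eC (P i (r i (m + 2))) - Setup.eC (P i (r i (m + 1)))‖ = _
    rw [← dist_eq_norm, hd]
    rcases Setup.perm3 (r i) m with ⟨h1, h2⟩ | ⟨h1, h2⟩
    · rw [h1, h2, dist_comm]
    · rw [h1, h2]
  · intro i m
    show EuclideanGeometry.angle (Setup.eC (P i (r i (m + 1)))) (Setup.eC (P i (r i m)))
      (Setup.eC (P i (r i (m + 2)))) = EuclideanGeometry.angle (P 0 (r i m + 1))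
        (P 0 (r i m)) (P 0 (r i m + 2))
    rw [Setup.angle_of_dist _ _ _ (P 0 (r i (m + 1)))
        (P 0 (r i m)) (P 0 (r i (m + 2))) (hd i _ _)
        (hd i _ _) (hd i _ _)]
    rcases Setup.perm3 (r i) m with ⟨h1, h2⟩ | ⟨h1, h2⟩
    · rw [h1, h2]
    · rw [h1, h2, EuclideanGeometry.angle_comm]
  · intro k
    show ‖Setup.eC (A (ρ (k + 2))) - Setup.eC (A (ρ (k + 1)))‖ = _
    rw [← dist_eq_norm, Setup.eC.dist_map, dist_comm]

/-- strict triangle inequalities give affine independence -/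
theorem indep_of_sides (v : Fin 3 → Plane) (h0 : dist (v 0) (v 1) < dist (v 1) (v 2) + dist (v 2) (v 0))
    (h1 : dist (v 1) (v 2) < dist (v 2) (v 0) + dist (v 0) (v 1))
    (h2 : dist (v 2) (v 0) < dist (v 0) (v 1) + dist (v 1) (v 2)) : AffineIndependent ℝ v := by
  have hv : v = ![v 0, v 1, v 2] := by
    funext i; fin_cases i <;> rfl
  rw [hv, affineIndependent_iff_not_collinear_set]
  intro hc
  rcases hc.wbtw_or_wbtw_or_wbtw with h | h | h
  · have := h.dist_add_dist
    rw [dist_comm (v 0) (v 2)] at this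
    linarith
  · have := h.dist_add_dist
    rw [dist_comm (v 1) (v 0)] at this
    linarith
  · have := h.dist_add_dist
    rw [dist_comm (v 2) (v 1)] at this
    linarith

/-- the cosine of an angle of a tile -/
theorem cos_angle (x y z : Plane) (a b c : ℝ) (ha : 0 < a) (hb : 0 < b) (h1 : dist x y = a)
    (h2 : dist z y = b) (h3 : dist x z = c) :
    Real.cos (EuclideanGeometry.angle x y z) = (a ^ 2 + b ^ 2 - c ^ 2) / (2 * a * b) := by
  have h := EuclideanGeometry.law_cos x y z
  rw [h1, h2, h3] at h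
  rw [eq_div_iff (by positivity)]
  linarith

end Pool.Agent.Q141.Tile
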